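import Mathlib

set_option autoImplicit false

/-!
Two groups of order 273 whose direct powers have isomorphic subgroup lattices, by an isomorphism
that respects the direct factors.

`Aff p r` is the semidirect product of `ZMod p` by a cyclic group `C` of order 3.  Let
`A = Aff 7 r7`, `B = Aff 13 r13`.  For an endomorphism `ρ` of `C` the fibre product
`Fib ρ = {(a, b) : c b = ρ (c a)}` is a subgroup of `A × B`.  Since the kernels of `A → C` and
`B → C` have coprime orders 7 and 13, a subgroup of a power of `Fib ρ` is determined by its two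
projections, and `(a, b) ↦ (a, b⁻¹)` is a bijection between the powers of `Fib ρ` and of
`Fib ρ⁻¹` which maps subgroups onto subgroups.
-/

namespace Run7.h650.Proj

/-- The cyclic group of order three. -/
abbrev C3 : Type := Multiplicative (ZMod 3)

/-- The semidirect product of the additive group `ZMod p` by `C3`, acting through `r`. -/
@[ext] structure Aff (p : ℕ) (r : C3 →* ZMod p) where
  t : ZMod p
  c : C3

namespace Aff

variable {p : ℕ} {r : C3 →* ZMod p}

instance : Mul (Aff p r) := ⟨fun a b => ⟨a.t + r a.c * b.t, a.c * b.c⟩⟩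
instance : One (Aff p r) := ⟨⟨0, 1⟩⟩
instance : Inv (Aff p r) := ⟨fun a => ⟨-(r a.c⁻¹ * a.t), a.c⁻¹⟩⟩

@[simp] theorem mul_t (a b : Aff p r) : (a * b).t = a.t + r a.c * b.t := rfl
@[simp] theorem mul_c (a b : Aff p r) : (a * b).c = a.c * b.c := rfl
@[simp] theorem one_t : (1 : Aff p r).t = 0 := rfl
@[simp] theorem one_c : (1 : Aff p r).c = 1 := rfl
@[simp] theorem inv_t (a : Aff p r) : (a⁻¹).t = -(r a.c⁻¹ * a.t) := rfl
@[simp] theorem inv_c (a : Aff p r) : (a⁻¹).c = a.c⁻¹ := rfl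

instance : Group (Aff p r) :=
  Group.ofLeftAxioms
    (by
      intro a b c
      ext
      · simp only [mul_t, mul_c, map_mul]; ring
      · simp only [mul_c, mul_assoc])
    (by
      intro a
      ext
      · simp
      · simp)
    (by
      intro a
      ext
      · simp only [mul_t, inv_t, inv_c, one_t]; ring
      · simp)

/-- The projection onto the cyclic group of order three. -/
def proj : Aff p r →* C3 where
  toFun a := a.c
  map_one' := rfl
  map_mul' _ _ := rfl

@[simp] theorem proj_apply (a : Aff p r) : proj a = a.c := rfl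

theorem pow_t_of_c_eq_one (a : Aff p r) (ha : a.c = 1) (n : ℕ) :
    (a ^ n).c = 1 ∧ (a ^ n).t = n * a.t := by
  induction n with
  | zero => simp
  | succ n ih =>
    obtain ⟨h1, h2⟩ := ih
    constructor
    · rw [pow_succ, mul_c, h1, ha, mul_one]
    · rw [pow_succ, mul_t, h1, h2, map_one]
      push_cast
      ring

end Aff

/-- The action of `C3` on `ZMod 7`: the generator acts as multiplication by 2. -/
def r7 : C3 →* ZMod 7 where
  toFun c := 2 ^ (Multiplicative.toAdd c).val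
  map_one' := by decide
  map_mul' := by decide

/-- The action of `C3` on `ZMod 13`: the generator acts as multiplication by 3. -/
def r13 : C3 →* ZMod 13 where
  toFun c := 3 ^ (Multiplicative.toAdd c).val
  map_one' := by decide
  map_mul' := by decide

/-- The nonabelian group of order 21. -/
abbrev A : Type := Aff 7 r7

/-- The nonabelian group of order 39. -/
abbrev B : Type := Aff 13 r13

theorem A_pow (a : A) (ha : a.c = 1) : a ^ 14 = 1 := by
  obtain ⟨h1, h2⟩ := Aff.pow_t_of_c_eq_one a ha 14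
  ext
  · rw [h2, Aff.one_t]
    have : ((14 : ℕ) : ZMod 7) = 0 := by decide
    rw [this, zero_mul]
  · rw [h1, Aff.one_c]

theorem B_pow (b : B) (hb : b.c = 1) : b ^ 14 = b := by
  obtain ⟨h1, h2⟩ := Aff.pow_t_of_c_eq_one b hb 14
  ext
  · rw [h2]
    have : ((14 : ℕ) : ZMod 13) = 1 := by decide
    rw [this, one_mul]
  · rw [h1, hb]

/-- The fibre product of `A` and `B` over `C3`, twisted by `ρ`. -/
def Fib (ρ : C3 →* C3) : Subgroup (A × B) where
  carrier := {x | x.2.c = ρ x.1.c}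
  one_mem' := by simp
  mul_mem' := by
    intro x y hx hy
    simp only [Set.mem_ofPred_eq] at hx hy ⊢
    rw [Prod.snd_mul, Prod.fst_mul, Aff.mul_c, Aff.mul_c, map_mul, hx, hy]
  inv_mem' := by
    intro x hx
    simp only [Set.mem_ofPred_eq] at hx ⊢
    rw [Prod.snd_inv, Prod.fst_inv, Aff.inv_c, Aff.inv_c, map_inv, hx]

theorem mem_Fib {ρ : C3 →* C3} {x : A × B} : x ∈ Fib ρ ↔ x.2.c = ρ x.1.c := Iff.rfl

/-- The bijection `(a, b) ↦ (a, b⁻¹)` from `Fib ρ` to `Fib ρ⁻¹`. -/
def flip (ρ σ : C3 →* C3) (h : ∀ c, σ c = (ρ c)⁻¹) (x : Fib ρ) : Fib σ :=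
  ⟨(x.1.1, x.1.2⁻¹), by rw [mem_Fib, h, ← mem_Fib.1 x.2]; rfl⟩

@[simp] theorem flip_fst (ρ σ : C3 →* C3) (h : ∀ c, σ c = (ρ c)⁻¹) (x : Fib ρ) :
    (flip ρ σ h x).1.1 = x.1.1 := rfl
@[simp] theorem flip_snd (ρ σ : C3 →* C3) (h : ∀ c, σ c = (ρ c)⁻¹) (x : Fib ρ) :
    (flip ρ σ h x).1.2 = x.1.2⁻¹ := rfl

theorem flip_flip (ρ σ : C3 →* C3) (h : ∀ c, σ c = (ρ c)⁻¹) (h' : ∀ c, ρ c = (σ c)⁻¹)
    (x : Fib ρ) : flip σ ρ h' (flip ρ σ h x) = x := by
  apply Subtype.ext
  apply Prod.ext
  · rfl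
  · exact inv_inv _

theorem flip_one (ρ σ : C3 →* C3) (h : ∀ c, σ c = (ρ c)⁻¹) : flip ρ σ h 1 = 1 := by
  apply Subtype.ext
  apply Prod.ext
  · rfl
  · exact inv_one

section Powers

variable {ι : Type} {ρ : C3 →* C3} (hρ : Function.Injective ρ)
include hρ

/-- A subgroup of a power of `Fib ρ` is determined by its two projections. -/
theorem mem_of_mem_of_mem (U : Subgroup (ι → Fib ρ)) {u v h : ι → Fib ρ} (hu : u ∈ U)
    (hv : v ∈ U) (h1 : ∀ i, (h i).1.1 = (u i).1.1) (h2 : ∀ i, (h i).1.2 = (v i).1.2) : h ∈ U := by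
  have key : h = u * (u⁻¹ * v) ^ 14 := by
    funext i
    have hc : (u i).1.1.c = (v i).1.1.c := by
      apply hρ
      rw [← mem_Fib.1 (v i).2, ← h2 i, mem_Fib.1 (h i).2, h1 i]
    have hcB : (u i).1.2.c = (v i).1.2.c := by
      rw [mem_Fib.1 (u i).2, mem_Fib.1 (v i).2, hc]
    have hA : ((u i).1.1⁻¹ * (v i).1.1).c = 1 := by
      rw [Aff.mul_c, Aff.inv_c, hc, inv_mul_cancel]
    have hB : ((u i).1.2⁻¹ * (v i).1.2).c = 1 := by
      rw [Aff.mul_c, Aff.inv_c, hcB, inv_mul_cancel]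
    apply Subtype.ext
    apply Prod.ext
    · have : ((u * (u⁻¹ * v) ^ 14) i).1.1 = (u i).1.1 * ((u i).1.1⁻¹ * (v i).1.1) ^ 14 := rfl
      rw [this, A_pow _ hA, mul_one, h1]
    · have : ((u * (u⁻¹ * v) ^ 14) i).1.2 = (u i).1.2 * ((u i).1.2⁻¹ * (v i).1.2) ^ 14 := rfl
      rw [this, B_pow _ hB, h2]
      group
  rw [key]
  exact U.mul_mem hu (U.pow_mem (U.mul_mem (U.inv_mem hu) hv) _)

/-- The image of a subgroup of a power of `Fib ρ` under the bijection `flip`. -/
def flipSub (σ : C3 →* C3) (h : ∀ c, σ c = (ρ c)⁻¹) (h' : ∀ c, ρ c = (σ c)⁻¹)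
    (U : Subgroup (ι → Fib ρ)) : Subgroup (ι → Fib σ) where
  carrier := {y | (fun i => flip σ ρ h' (y i)) ∈ U}
  one_mem' := by
    have : (fun i : ι => flip σ ρ h' ((1 : ι → Fib σ) i)) = 1 := by
      funext i
      exact flip_one σ ρ h'
    simp only [Set.mem_ofPred_eq]
    rw [this]
    exact U.one_mem
  mul_mem' := by
    intro x y hx hy
    simp only [Set.mem_ofPred_eq] at hx hy ⊢
    apply mem_of_mem_of_mem hρ U (U.mul_mem hx hy) (U.mul_mem hy hx)
    · intro i
      rfl
    · intro i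
      exact mul_inv_rev _ _
  inv_mem' := by
    intro x hx
    simp only [Set.mem_ofPred_eq] at hx ⊢
    have : (fun i : ι => flip σ ρ h' (x⁻¹ i)) = (fun i => flip σ ρ h' (x i))⁻¹ := by
      funext i
      apply Subtype.ext
      apply Prod.ext
      · rfl
      · rfl
    rw [this]
    exact U.inv_mem hx

omit hρ in
theorem mem_flipSub (hρ : Function.Injective ρ) (σ : C3 →* C3) (h : ∀ c, σ c = (ρ c)⁻¹)
    (h' : ∀ c, ρ c = (σ c)⁻¹) (U : Subgroup (ι → Fib ρ)) (y : ι → Fib σ) :
    y ∈ flipSub hρ σ h h' U ↔ (fun i => flip σ ρ h' (y i)) ∈ U := Iff.rfl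

end Powers

/-- The projectivity between a power of `Fib ρ` and the same power of `Fib σ`. -/
def projectivity {ι : Type} {ρ σ : C3 →* C3} (hρ : Function.Injective ρ)
    (hσ : Function.Injective σ) (h : ∀ c, σ c = (ρ c)⁻¹) (h' : ∀ c, ρ c = (σ c)⁻¹) :
    Subgroup (ι → Fib ρ) ≃o Subgroup (ι → Fib σ) where
  toFun := flipSub hρ σ h h'
  invFun := flipSub hσ ρ h' h
  left_inv := by
    intro U
    ext x
    rw [mem_flipSub, mem_flipSub]
    have : (fun i : ι => flip σ ρ h' (flip ρ σ h (x i))) = x := by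
      funext i
      exact flip_flip ρ σ h h' (x i)
    rw [this]
  right_inv := by
    intro U
    ext x
    rw [mem_flipSub, mem_flipSub]
    have : (fun i : ι => flip ρ σ h (flip σ ρ h' (x i))) = x := by
      funext i
      exact flip_flip σ ρ h' h (x i)
    rw [this]
  map_rel_iff' := by
    intro U V
    constructor
    · intro hUV x hx
      have h1 : (fun i => flip ρ σ h (x i)) ∈ flipSub hρ σ h h' U := by
        rw [mem_flipSub]
        have : (fun i : ι => flip σ ρ h' (flip ρ σ h (x i))) = x := by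
          funext i
          exact flip_flip ρ σ h h' (x i)
        rw [this]
        exact hx
      have h2 := hUV h1
      rw [Equiv.coe_fn_mk, mem_flipSub] at h2
      have : (fun i : ι => flip σ ρ h' (flip ρ σ h (x i))) = x := by
        funext i
        exact flip_flip ρ σ h h' (x i)
      rw [this] at h2
      exact h2
    · intro hUV y hy
      exact hUV hy

theorem mem_projectivity {ι : Type} {ρ σ : C3 →* C3} (hρ : Function.Injective ρ)
    (hσ : Function.Injective σ) (h : ∀ c, σ c = (ρ c)⁻¹) (h' : ∀ c, ρ c = (σ c)⁻¹)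
    (U : Subgroup (ι → Fib ρ)) (y : ι → Fib σ) :
    y ∈ projectivity hρ hσ h h' U ↔ (fun i => flip σ ρ h' (y i)) ∈ U := Iff.rfl

/-- The image of a coordinate subgroup is the corresponding coordinate subgroup. -/
theorem projectivity_range {n : ℕ} {ρ σ : C3 →* C3} (hρ : Function.Injective ρ)
    (hσ : Function.Injective σ) (h : ∀ c, σ c = (ρ c)⁻¹) (h' : ∀ c, ρ c = (σ c)⁻¹) (i : Fin n) :
    projectivity hρ hσ h h' (MonoidHom.mulSingle (fun _ : Fin n => Fib ρ) i).range =
      (MonoidHom.mulSingle (fun _ : Fin n => Fib σ) i).range := by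
  ext y
  rw [mem_projectivity, MonoidHom.mem_range, MonoidHom.mem_range]
  constructor
  · rintro ⟨g, hg⟩
    refine ⟨y i, ?_⟩
    funext j
    by_cases hj : j = i
    · subst hj
      rw [MonoidHom.mulSingle_apply, Pi.mulSingle_eq_same]
    · have := congrFun hg j
      simp only [MonoidHom.mulSingle_apply, Pi.mulSingle_eq_of_ne hj] at this ⊢
      have h2 := congrArg (flip ρ σ h) this
      rw [flip_one, flip_flip] at h2
      exact h2
  · rintro ⟨g, rfl⟩
    refine ⟨flip σ ρ h' g, ?_⟩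
    funext j
    by_cases hj : j = i
    · subst hj
      rw [MonoidHom.mulSingle_apply, MonoidHom.mulSingle_apply, Pi.mulSingle_eq_same,
        Pi.mulSingle_eq_same]
    · simp only [MonoidHom.mulSingle_apply, Pi.mulSingle_eq_of_ne hj]
      exact (flip_one _ _ _).symm

/-- Elements of order seven and thirteen in `A` and `B`. -/
theorem A_no13 : ∀ a : A, a ^ 13 = 1 → a = 1 := by
  intro a ha
  have hc : a.c = 1 := by
    have h1 : a.c ^ 13 = 1 := by
      have := congrArg Aff.proj ha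
      rw [map_pow, map_one] at this
      exact this
    revert h1
    generalize a.c = c
    revert c
    decide
  obtain ⟨-, h2⟩ := Aff.pow_t_of_c_eq_one a hc 13
  rw [ha, Aff.one_t] at h2
  ext
  · rw [Aff.one_t]
    revert h2
    generalize a.t = t
    revert t
    decide
  · rw [hc, Aff.one_c]

theorem B_no7 : ∀ b : B, b ^ 7 = 1 → b = 1 := by
  intro b hb
  have hc : b.c = 1 := by
    have h1 : b.c ^ 7 = 1 := by
      have := congrArg Aff.proj hb
      rw [map_pow, map_one] at this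
      exact this
    revert h1
    generalize b.c = c
    revert c
    decide
  obtain ⟨-, h2⟩ := Aff.pow_t_of_c_eq_one b hc 7
  rw [hb, Aff.one_t] at h2
  ext
  · rw [Aff.one_t]
    revert h2
    generalize b.t = t
    revert t
    decide
  · rw [hc, Aff.one_c]

/-- The generator of `C3`. -/
def gen : C3 := Multiplicative.ofAdd 1

theorem A_conj (x a : A) (ha : a ^ 7 = 1) (ha1 : a ≠ 1) (h : x * a = a ^ 2 * x) : x.c = gen := by
  have hc : a.c = 1 := by
    have h1 : a.c ^ 7 = 1 := by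
      have := congrArg Aff.proj ha
      rw [map_pow, map_one] at this
      exact this
    revert h1
    generalize a.c = c
    revert c
    decide
  have ht : a.t ≠ 0 := by
    intro ht
    apply ha1
    ext
    · rw [ht, Aff.one_t]
    · rw [hc, Aff.one_c]
  obtain ⟨h3, h4⟩ := Aff.pow_t_of_c_eq_one a hc 2
  have h5 := congrArg Aff.t h
  rw [Aff.mul_t, Aff.mul_t, h3, h4, map_one] at h5
  have h6 : r7 x.c * a.t = 2 * a.t := by
    have : x.t + r7 x.c * a.t = x.t + 2 * a.t := by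
      rw [h5]; push_cast; ring
    exact add_left_cancel this
  revert h6 ht
  generalize a.t = t
  generalize x.c = c
  revert t c
  decide

theorem B_conj (x b : B) (hb : b ^ 13 = 1) (hb1 : b ≠ 1) (h : x * b = b ^ 3 * x) : x.c = gen := by
  have hc : b.c = 1 := by
    have h1 : b.c ^ 13 = 1 := by
      have := congrArg Aff.proj hb
      rw [map_pow, map_one] at this
      exact this
    revert h1
    generalize b.c = c
    revert c
    decide
  have ht : b.t ≠ 0 := by
    intro ht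
    apply hb1
    ext
    · rw [ht, Aff.one_t]
    · rw [hc, Aff.one_c]
  obtain ⟨h3, h4⟩ := Aff.pow_t_of_c_eq_one b hc 3
  have h5 := congrArg Aff.t h
  rw [Aff.mul_t, Aff.mul_t, h3, h4, map_one] at h5
  have h6 : r13 x.c * b.t = 3 * b.t := by
    have : x.t + r13 x.c * b.t = x.t + 3 * b.t := by
      rw [h5]; push_cast; ring
    exact add_left_cancel this
  revert h6 ht
  generalize b.t = t
  generalize x.c = c
  revert t c
  decide

/-- The property that separates the two fibre products. -/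
def Good (G : Type) [Group G] : Prop :=
  ∃ x a b : G, a ^ 7 = 1 ∧ a ≠ 1 ∧ b ^ 13 = 1 ∧ b ≠ 1 ∧ x * a = a ^ 2 * x ∧ x * b = b ^ 3 * x

theorem Good.of_equiv {G H : Type} [Group G] [Group H] (e : G ≃* H) (h : Good G) : Good H := by
  obtain ⟨x, a, b, h1, h2, h3, h4, h5, h6⟩ := h
  refine ⟨e x, e a, e b, ?_, ?_, ?_, ?_, ?_, ?_⟩
  · rw [← map_pow, h1, map_one]
  · rwa [Ne, map_eq_one_iff e e.injective]
  · rw [← map_pow, h3, map_one]
  · rwa [Ne, map_eq_one_iff e e.injective]
  · rw [← map_mul, h5, map_mul, map_pow]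
  · rw [← map_mul, h6, map_mul, map_pow]

theorem good_id : Good (Fib (MonoidHom.id C3)) := by
  refine ⟨⟨(⟨0, gen⟩, ⟨0, gen⟩), rfl⟩, ⟨(⟨1, 1⟩, ⟨0, 1⟩), rfl⟩, ⟨(⟨0, 1⟩, ⟨1, 1⟩), rfl⟩,
    ?_, ?_, ?_, ?_, ?_, ?_⟩
  · apply Subtype.ext
    apply Prod.ext
    · obtain ⟨h1, h2⟩ := Aff.pow_t_of_c_eq_one (⟨1, 1⟩ : A) rfl 7
      apply Aff.ext
      · exact h2.trans (by decide)
      · exact h1
    · obtain ⟨h1, h2⟩ := Aff.pow_t_of_c_eq_one (⟨0, 1⟩ : B) rfl 7
      apply Aff.ext
      · exact h2.trans (by decide)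
      · exact h1
  · intro h
    have h1 := congrArg (fun z : Fib (MonoidHom.id C3) => z.1.1.t) h
    have h2 : (1 : ZMod 7) = 0 := h1
    revert h2
    decide
  · apply Subtype.ext
    apply Prod.ext
    · obtain ⟨h1, h2⟩ := Aff.pow_t_of_c_eq_one (⟨0, 1⟩ : A) rfl 13
      apply Aff.ext
      · exact h2.trans (by decide)
      · exact h1
    · obtain ⟨h1, h2⟩ := Aff.pow_t_of_c_eq_one (⟨1, 1⟩ : B) rfl 13
      apply Aff.ext
      · exact h2.trans (by decide)
      · exact h1
  · intro h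
    have h1 := congrArg (fun z : Fib (MonoidHom.id C3) => z.1.2.t) h
    have h2 : (1 : ZMod 13) = 0 := h1
    revert h2
    decide
  · apply Subtype.ext
    apply Prod.ext
    · show (⟨0, gen⟩ : A) * ⟨1, 1⟩ = (⟨1, 1⟩ : A) ^ 2 * ⟨0, gen⟩
      rw [pow_two]
      apply Aff.ext
      · show (0 : ZMod 7) + r7 gen * 1 = (1 + r7 1 * 1) + r7 (1 * 1) * 0
        decide
      · decide
    · show (⟨0, gen⟩ : B) * ⟨0, 1⟩ = (⟨0, 1⟩ : B) ^ 2 * ⟨0, gen⟩
      rw [pow_two]
      apply Aff.ext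
      · show (0 : ZMod 13) + r13 gen * 0 = (0 + r13 1 * 0) + r13 (1 * 1) * 0
        decide
      · decide
  · apply Subtype.ext
    apply Prod.ext
    · show (⟨0, gen⟩ : A) * ⟨0, 1⟩ = (⟨0, 1⟩ : A) ^ 3 * ⟨0, gen⟩
      obtain ⟨h1, h2⟩ := Aff.pow_t_of_c_eq_one (⟨0, 1⟩ : A) rfl 3
      apply Aff.ext
      · rw [Aff.mul_t, Aff.mul_t, h1, h2]
        show (0 : ZMod 7) + r7 gen * 0 = ((3 : ℕ) : ZMod 7) * 0 + r7 1 * 0
        decide
      · rw [Aff.mul_c, Aff.mul_c, h1]
        decide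
    · show (⟨0, gen⟩ : B) * ⟨1, 1⟩ = (⟨1, 1⟩ : B) ^ 3 * ⟨0, gen⟩
      obtain ⟨h1, h2⟩ := Aff.pow_t_of_c_eq_one (⟨1, 1⟩ : B) rfl 3
      apply Aff.ext
      · rw [Aff.mul_t, Aff.mul_t, h1, h2]
        show (0 : ZMod 13) + r13 gen * 1 = ((3 : ℕ) : ZMod 13) * 1 + r13 1 * 0
        decide
      · rw [Aff.mul_c, Aff.mul_c, h1]
        decide

/-- Inversion on `C3`. -/
def inv3 : C3 →* C3 := invMonoidHom

theorem not_good_inv : ¬ Good (Fib inv3) := by
  rintro ⟨x, a, b, h1, h2, h3, h4, h5, h6⟩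
  have a2 : a.1.2 = 1 := B_no7 _ (congrArg (fun z : Fib inv3 => z.1.2) h1)
  have b1 : b.1.1 = 1 := A_no13 _ (congrArg (fun z : Fib inv3 => z.1.1) h3)
  have a1 : a.1.1 ≠ 1 := by
    intro h
    apply h2
    apply Subtype.ext
    exact Prod.ext h a2
  have b2 : b.1.2 ≠ 1 := by
    intro h
    apply h4
    apply Subtype.ext
    exact Prod.ext b1 h
  have e1 : x.1.1.c = gen := A_conj x.1.1 a.1.1 (congrArg (fun z : Fib inv3 => z.1.1) h1) a1
    (congrArg (fun z : Fib inv3 => z.1.1) h5)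
  have e2 : x.1.2.c = gen := B_conj x.1.2 b.1.2 (congrArg (fun z : Fib inv3 => z.1.2) h3) b2
    (congrArg (fun z : Fib inv3 => z.1.2) h6)
  have e3 : x.1.2.c = (x.1.1.c)⁻¹ := mem_Fib.1 x.2
  rw [e1, e2] at e3
  revert e3
  decide

end Run7.h650.Proj
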